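import Pool.Agent.P.MP_3bd355_an.E.All
import Pool.Agent.P.MP_3bd355_an.Fin
import Pool.Agent.P.MP_3bd355_an.T.Pk.Asm
import Pool.Agent.P.MP_3bd355_an.T.Pk.Bda
import Pool.Agent.P.MP_3bd355_an.T.Pk.Bdat
import Pool.Agent.P.MP_3bd355_an.T.Pk.Bdz
import Pool.Agent.P.MP_3bd355_an.T.Pk.Big
import Pool.Agent.P.MP_3bd355_an.T.Pk.Big1
import Pool.Agent.P.MP_3bd355_an.T.Pk.Bij
import Pool.Agent.P.MP_3bd355_an.T.Pk.Core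
import Pool.Agent.P.MP_3bd355_an.T.Pk.Deg
import Pool.Agent.P.MP_3bd355_an.T.Pk.Form
import Pool.Agent.P.MP_3bd355_an.T.Pk.Gb
import Pool.Agent.P.MP_3bd355_an.T.Pk.Gb0
import Pool.Agent.P.MP_3bd355_an.T.Pk.Gb1
import Pool.Agent.P.MP_3bd355_an.T.Pk.Gen
import Pool.Agent.P.MP_3bd355_an.T.Pk.Gf
import Pool.Agent.P.MP_3bd355_an.T.Pk.Gf1
import Pool.Agent.P.MP_3bd355_an.T.Pk.Gf2
import Pool.Agent.P.MP_3bd355_an.T.Pk.Gf3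
import Pool.Agent.P.MP_3bd355_an.T.Pk.Gnb
import Pool.Agent.P.MP_3bd355_an.T.Pk.Hv
import Pool.Agent.P.MP_3bd355_an.T.Pk.Kv
import Pool.Agent.P.MP_3bd355_an.T.Pk.Lev
import Pool.Agent.P.MP_3bd355_an.T.Pk.Li1
import Pool.Agent.P.MP_3bd355_an.T.Pk.Li2
import Pool.Agent.P.MP_3bd355_an.T.Pk.Lim
import Pool.Agent.P.MP_3bd355_an.T.Pk.Liou
import Pool.Agent.P.MP_3bd355_an.T.Pk.Main
import Pool.Agent.P.MP_3bd355_an.T.Pk.Map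
import Pool.Agent.P.MP_3bd355_an.T.Pk.Nbl
import Pool.Agent.P.MP_3bd355_an.T.Pk.Nc
import Pool.Agent.P.MP_3bd355_an.T.Pk.Nz
import Pool.Agent.P.MP_3bd355_an.T.Pk.Pull
import Pool.Agent.P.MP_3bd355_an.T.Pk.Rng
import Pool.Agent.P.MP_3bd355_an.T.Pk.Rngc
import Pool.Agent.P.MP_3bd355_an.T.Pk.Rngz
import Pool.Agent.P.MP_3bd355_an.T.Pk.Rot
import Pool.Agent.P.MP_3bd355_an.T.Pk.Rt1
import Pool.Agent.P.MP_3bd355_an.T.Pk.Rt2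
import Pool.Agent.P.MP_3bd355_an.T.Pk.Spre
import Pool.Agent.P.MP_3bd355_an.T.Pk.Str
import Pool.Agent.P.MP_3bd355_an.T.Pk.Sym
import Pool.Agent.P.MP_3bd355_an.T.Pk.Trg
import Pool.Agent.P.MP_3bd355_an.T.Pk.Vf

/-! Composition of the packages: the explicit form. -/

open Set

namespace Pool.Agent.P.MP_3bd355_an

theorem allT_LEV : T_LEV := t_lev all_PN t_gen t_gnb (t_nbl t_gnb)

theorem allT_MAP : T_MAP :=
  t_map allT_LEV (t_nz e_cross) (t_bdat t_str t_bda t_bdz) (t_rng t_rngc t_rngz t_nc)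
    (t_asm t_pull) (t_big t_pull t_big1) t_nc (t_bij t_spre t_deg)

theorem allT_KV : T_KV := t_kv t_spre (t_gb t_spre (t_gb1 t_gb0)) t_rt1 t_rt2

theorem allT_LIOU : T_LIOU := t_liou t_li1 t_li2

theorem allT_GF : T_GF :=
  t_gf t_spre (t_gf1 t_spre) (t_gf3 t_spre t_rt1 allT_KV allT_LIOU (t_gf2 t_spre))

theorem allT_FORM : T_FORM :=
  t_form allT_MAP t_spre (t_lim t_spre) t_trg (t_sym t_spre)
    (t_vf t_spre t_rt1 allT_KV allT_LIOU) (t_hv t_spre t_rt1 t_rt2) allT_GF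

theorem allT_CORE : T_CORE :=
  t_core all_FR all_GREEN all_LIN all_EDAT all_REG all_MULT all_SH all_ARC1 all_ARC2 all_ARCa
    all_ARCb all_ARCc all_ZEX all_TPATH all_POSAT all_SOLEX allE_TIP1 allT_FORM

theorem allT_MAIN : T_MAIN :=
  t_main all_MREAL all_E1 all_E2 all_SC allT_CORE all_FOLD1 all_FOLD2 all_FOLD3 all_BR all_CRIT1
    all_ROT all_ROTc t_rot t_rotc allE_MEM

theorem explicit_thm (r A B : ℝ) (z₀ z₁ : ℂ) (hr : 0 < r) (h₀ : z₀ ∈ ann r) (h₁ : z₁ ∈ ann r)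
    (hA : A < 0) (hh : 0 < hf r A B z₁) (hne : z₀ ≠ z₁) :
    IsGreatest {x : EReal | ∃ a b c κ v g e C l₀ l₁ f, Crit r A B z₀ z₁ a b c κ v g ∧
        Form r A B z₀ κ v g e C l₀ l₁ f ∧ x = (HV C e (f z₀) : EReal)} (Msup r A B z₀ z₁) ∧
      ∀ u : ℂ → EReal, (Adm r A B z₁ u ∧ u z₀ = Msup r A B z₀ z₁) ↔
        ∃ a b c κ v g e C l₀ l₁ f, Crit r A B z₀ z₁ a b c κ v g ∧
          Form r A B z₀ κ v g e C l₀ l₁ f ∧ e 0 < e 1 ∧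
          (HV C e (f z₀) : EReal) = Msup r A B z₀ z₁ ∧ ∀ z ∈ ann r, u z = (v z : EReal) := by
  obtain ⟨⟨a, b, c, κ, v, g, e, C, l₀, l₁, f, k1, k1', k2⟩, k3, k4⟩ :=
    allT_MAIN r A B z₀ z₁ hr h₀ h₁ hA hh hne
  refine ⟨⟨⟨a, b, c, κ, v, g, e, C, l₀, l₁, f, k1, k1', ?_⟩, ?_⟩,
    fun u => ⟨fun ⟨hu, e'⟩ => ?_, ?_⟩⟩
  · rw [← k1'.val z₀ ⟨h₀, k1.avoid⟩, k2]
  · rintro _ ⟨a, b, c, κ, v, g, e, C, l₀, l₁, f, k, k', rfl⟩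
    rw [← k'.val z₀ ⟨h₀, k.avoid⟩]
    exact (k3 a b c κ v g k).1
  · obtain ⟨a, b, c, κ, v, g, e, C, l₀, l₁, f, k, k', k5, k6⟩ := k4 u hu e'
    refine ⟨a, b, c, κ, v, g, e, C, l₀, l₁, f, k, k', k'.sep.2 k5, ?_, k6⟩
    rw [← k'.val z₀ ⟨h₀, k.avoid⟩]
    exact (k6 _ h₀).symm.trans e'
  · rintro ⟨a, b, c, κ, v, g, e, C, l₀, l₁, f, k, k', k5, k6, k7⟩
    rw [← k'.val z₀ ⟨h₀, k.avoid⟩] at k6
    exact ⟨((k3 a b c κ v g k).2 (k'.sep.1 k5)).congr k7, (k7 _ h₀).trans k6⟩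

end Pool.Agent.P.MP_3bd355_an
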