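import Pool.Agent.P.MP_3bd355_an.Defs

/-! Definitions for the explicit form of the extremal functions when `A < 0`. -/

open Set
open scoped ComplexConjugate

namespace Pool.Agent.P.MP_3bd355_an

/-- The square root of `∏ (t - e i)`, with the principal root in each factor. -/
noncomputable def Rt (e : Fin 5 → ℝ) (t : ℂ) : ℂ := ∏ i, (t - e i) ^ (1 / 2 : ℂ)

/-- The hyperelliptic integral `C Re ∫ ds / Rt s` from `∞` to `t`, along the vertical ray above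
`t` (above `conj t` when `t` is in the lower half plane). -/
noncomputable def HV (C : ℝ) (e : Fin 5 → ℝ) (t : ℂ) : ℝ :=
  C * ∫ y in Ioi (0 : ℝ), (1 / Rt e (t.re + (|t.im| + y) * Complex.I)).im

/-- The three slits `(-∞, e 0]`, `[e 1, e 2]`, `[e 3, e 4]`. -/
def Sl (e : Fin 5 → ℝ) : Set ℂ :=
  {t | t.im = 0 ∧ (t.re ≤ e 0 ∨ t.re ∈ Icc (e 1) (e 2) ∨ t.re ∈ Icc (e 3) (e 4))}

/-- A rational function with poles at `t₀` and `conj t₀`. -/
noncomputable def GK (t₀ p : ℂ) (l₀ l₁ : ℝ) (t : ℂ) : ℂ :=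
  l₀ + l₁ * t - p / (2 * (t - t₀)) - conj p / (2 * (t - conj t₀))

/-- The explicit form: `f` maps the complement of the arc conformally onto the plane with three
real slits, `v` is a hyperelliptic integral of `f`, and the gradient of `g` is explicit. -/
structure Form (r A B : ℝ) (z₀ : ℂ) (κ : ℝ → ℂ) (v g : ℂ → ℝ) (e : Fin 5 → ℝ) (C l₀ l₁ : ℝ)
    (f : ℂ → ℂ) : Prop where
  ord : e 0 ≤ e 1 ∧ e 1 < e 2 ∧ e 2 < e 3 ∧ e 3 < e 4
  sep : e 0 < e 1 ↔ ∀ t ∈ Icc (0 : ℝ) 1, r < ‖κ t‖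
  diff : DifferentiableOn ℂ f (ann r \ κ '' Icc 0 1)
  bij : BijOn f (ann r \ κ '' Icc 0 1) (Sl e)ᶜ
  val : ∀ z ∈ ann r \ κ '' Icc 0 1, v z = HV C e (f z)
  valA : HV C e ((e 3 + e 4) / 2 : ℝ) = A
  valB : HV C e ((e 1 + e 2) / 2 : ℝ) = B
  gv : ∀ z ∈ ann r \ κ '' Icc 0 1, grad v z ^ 2 * ∏ i, (f z - e i) = C ^ 2 * deriv f z ^ 2
  gg : ∀ z ∈ ann r \ κ '' Icc 0 1, f z ≠ f z₀ → f z ≠ conj (f z₀) →
    grad g z = deriv f z / 2 * (1 / (f z - conj (f z₀)) - 1 / (f z - f z₀)) +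
      grad v z * GK (f z₀) (deriv f z₀ / grad v z₀) l₀ l₁ (f z)

end Pool.Agent.P.MP_3bd355_an
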