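import Pool.Agent.P.MP_3bd355_an.E.St
import Pool.Agent.P.MP_3bd355_an.T.Defs

/-! The explicit form for `A < 0`: internal definitions and the statements of the packages. -/

open Set Filter Metric Complex InnerProductSpace
open scoped Topology ComplexConjugate Real

namespace Pool.Agent.P.MP_3bd355_an

/-- The chart of the outer circle. -/
noncomputable def Ea (η : ℂ) : ℂ := exp (I * η)

/-- The chart of the inner circle. -/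
noncomputable def Eb (r : ℝ) (η : ℂ) : ℂ := r * exp (-(I * η))

/-- The uniformising function. -/
noncomputable def ff (v ω : ℂ → ℝ) (z : ℂ) : ℂ := -grad ω z / grad v z

/-- `G` extends analytically across the real line at `x`, with real values on the line and the
value `c` at `x`. -/
def RA (G : ℂ → ℂ) (x c : ℝ) : Prop :=
  ∃ Ψ : ℂ → ℂ, AnalyticAt ℂ Ψ x ∧ (∀ᶠ t : ℝ in 𝓝 x, (Ψ t).im = 0) ∧ Ψ x = c ∧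
    ∀ᶠ η : ℂ in 𝓝[upH] (x : ℂ), G η = Ψ η

/-- `G` is a local chart of `W` above the real point `x`. -/
def Ch (W : Set ℂ) (G : ℂ → ℂ) (x : ℝ) : Prop :=
  ∀ᶠ η : ℂ in 𝓝[upH] (x : ℂ), AnalyticAt ℂ G η ∧ deriv G η ≠ 0 ∧ G η ∈ W

/-- `G` leaves every compact subset of `W` at the real point `x`. -/
def Esc (W : Set ℂ) (G : ℂ → ℂ) (x : ℝ) : Prop :=
  ∀ C : Set ℂ, IsCompact C → C ⊆ W → ∀ᶠ η : ℂ in 𝓝[upH] (x : ℂ), G η ∈ W ∧ G η ∉ C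

/-- The order of the branch points. -/
def Od (e : Fin 5 → ℝ) : Prop := e 0 ≤ e 1 ∧ e 1 < e 2 ∧ e 2 < e 3 ∧ e 3 < e 4

/-- The frame of this part. -/
structure TF (r A B : ℝ) (z₁ : ℂ) (L : Set ℂ) (v ω : ℂ → ℝ) (φ F : ℂ → ℂ) (h s0 s1 y : ℝ)
    (Fb : ℝ → ℂ) : Prop where
  fr : Fr r A B z₁ L v φ F h s0 s1
  A0 : A < 0
  om : Sol r 1 0 L ω
  bd : Bd F Fb
  yI : y ∈ Icc s0 s1
  one : One v F s0 s1 y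

/-- Strict inequalities. -/
def Str3 (A B : ℝ) (W : Set ℂ) (v ω : ℂ → ℝ) : Prop :=
  ∀ z ∈ W, A < v z ∧ v z < B ∧ 0 < ω z ∧ ω z + v z / (B - A) < B / (B - A)

/-- The boundary values of `f` in the three charts. -/
structure BDat (r A B : ℝ) (f F : ℂ → ℂ) (s0 s1 y : ℝ) : Prop where
  al : ∀ x : ℝ, ∃ c : ℝ, 1 / (B - A) < c ∧ RA (fun η => f (Ea η)) x c
  be : s1 = s0 + 2 * π → ∀ x : ℝ, ∃ c ∈ Ioo (0 : ℝ) (1 / (B - A)), RA (fun η => f (Eb r η)) x c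
  ex : ∀ x ∈ Eo s0 s1, ∃ c ∈ Ioo (0 : ℝ) (1 / (B - A)), RA (fun η => f (F η)) x c
  ze : ∀ x ∈ Zo s0 s1, (∀ k : ℤ, x ≠ y + 2 * π * k) → ∃ c : ℝ, c < 0 ∧ RA (fun η => f (F η)) x c
  en : s1 < s0 + 2 * π → RA (fun η => f (F η)) s0 0 ∧ RA (fun η => f (F η)) s1 0
  tip : ∃ c : ℝ, c < 0 ∧ RA (fun η => (η - y) ^ 2 * f (F η)) y c

/-- The ranges of the boundary values. -/
structure Rng (r : ℝ) (f F : ℂ → ℂ) (s0 s1 y : ℝ) (e : Fin 5 → ℝ) : Prop where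
  od : Od e
  nt : e 0 < e 1 ↔ s1 = s0 + 2 * π
  al : ∀ x : ℝ, ∃ c ∈ Icc (e 3) (e 4), RA (fun η => f (Ea η)) x c
  be : s1 = s0 + 2 * π → ∀ x : ℝ, ∃ c ∈ Icc (e 1) (e 2), RA (fun η => f (Eb r η)) x c
  ex : ∀ x ∈ Eo s0 s1, ∃ c ∈ Icc (e 1) (e 2), RA (fun η => f (F η)) x c
  ze : ∀ x ∈ Zo s0 s1, (∀ k : ℤ, x ≠ y + 2 * π * k) → ∃ c ≤ e 0, RA (fun η => f (F η)) x c
  en : s1 < s0 + 2 * π →
    e 0 = e 1 ∧ RA (fun η => f (F η)) s0 (e 0) ∧ RA (fun η => f (F η)) s1 (e 0)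
  tip : ∃ c : ℝ, c < 0 ∧ RA (fun η => (η - y) ^ 2 * f (F η)) y c
  on : ∀ c : ℝ, (c : ℂ) ∈ Sl e → ∃ x : ℝ, RA (fun η => f (Ea η)) x c ∨
    (s1 = s0 + 2 * π ∧ RA (fun η => f (Eb r η)) x c) ∨ RA (fun η => f (F η)) x c

/-- The joint behaviour of `f` and `u` at the boundary. -/
def CL (W : Set ℂ) (f : ℂ → ℂ) (e : Fin 5 → ℝ) (u : ℂ → ℝ) (a b : ℝ) : Prop :=
  ∀ p ∈ frontier W, ∀ ε > (0 : ℝ), ∀ᶠ z in 𝓝[W] p,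
    ((∃ s ∈ Icc (e 3) (e 4), ‖f z - s‖ < ε) ∧ |u z - a| < ε) ∨
    ((∃ s ∈ Icc (e 1) (e 2), ‖f z - s‖ < ε) ∧ |u z - b| < ε) ∨
    (((∃ s ≤ e 0, ‖f z - (s : ℝ)‖ < ε) ∨ ε⁻¹ < ‖f z‖) ∧ |u z| < ε) ∨
    (e 0 = e 1 ∧ ‖f z - e 0‖ < ε)

/-- Every point of the slits is a limit of values of `f` at the boundary. -/
def ACC (W : Set ℂ) (f : ℂ → ℂ) (e : Fin 5 → ℝ) : Prop :=
  ∀ s ∈ Sl e, ∀ C : Set ℂ, IsCompact C → C ⊆ W → s ∈ closure (f '' (W \ C))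

/-- `f` is injective where it is large. -/
def BIG (W : Set ℂ) (f : ℂ → ℂ) (e : Fin 5 → ℝ) : Prop :=
  ∃ R : ℝ, InjOn f {z | z ∈ W ∧ R < ‖f z‖} ∧ ∃ z ∈ W, R < ‖f z‖ ∧ f z ∉ Sl e

/-- Limits on the open slits and at infinity. -/
structure Lim (e : Fin 5 → ℝ) (U : ℂ → ℝ) (a b : ℝ) : Prop where
  al : ∀ s ∈ Ioo (e 3) (e 4), Tendsto U (𝓝[(Sl e)ᶜ] (s : ℂ)) (𝓝 a)
  be : ∀ s ∈ Ioo (e 1) (e 2), Tendsto U (𝓝[(Sl e)ᶜ] (s : ℂ)) (𝓝 b)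
  ze : ∀ s < e 0, Tendsto U (𝓝[(Sl e)ᶜ] ((s : ℝ) : ℂ)) (𝓝 0)
  inf : Tendsto U (cocompact ℂ ⊓ 𝓟 (Sl e)ᶜ) (𝓝 0)

/-- A bounded harmonic function on the slit plane. -/
structure VS (e : Fin 5 → ℝ) (V : ℂ → ℝ) (a b : ℝ) : Prop where
  harm : HarmonicOnNhd V (Sl e)ᶜ
  bdd : ∃ M : ℝ, ∀ t ∈ (Sl e)ᶜ, |V t| ≤ M
  lim : Lim e V a b

/-- The Green function of the slit plane. -/
structure GS (e : Fin 5 → ℝ) (t₀ : ℂ) (G : ℂ → ℝ) : Prop where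
  mem : t₀ ∈ (Sl e)ᶜ
  harm : HarmonicOnNhd G ((Sl e)ᶜ \ {t₀})
  pole : ∃ R : ℂ → ℝ, HarmonicAt R t₀ ∧ ∀ᶠ t in 𝓝[≠] t₀, G t = R t - Real.log ‖t - t₀‖
  bdd : ∀ δ > (0 : ℝ), ∃ M : ℝ, ∀ t ∈ (Sl e)ᶜ, δ ≤ ‖t - t₀‖ → |G t| ≤ M
  lim : Lim e G 0 0

/-- A symmetric function on the slit plane with finitely many poles. -/
structure US (e : Fin 5 → ℝ) (P : Set ℂ) (U : ℂ → ℝ) (a b : ℝ) : Prop where
  fin : P.Finite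
  sub : P ⊆ (Sl e)ᶜ
  harm : HarmonicOnNhd U ((Sl e)ᶜ \ P)
  sym : ∀ t ∈ (Sl e)ᶜ \ P, U (conj t) = U t
  bdd : ∀ δ > (0 : ℝ), ∃ M : ℝ, ∀ t ∈ (Sl e)ᶜ, (∀ p ∈ P, δ ≤ ‖t - p‖) → |U t| ≤ M
  lim : Lim e U a b

/-- The conditions of the Liouville argument, away from the set `P`. -/
structure LC (e : Fin 5 → ℝ) (P : Set ℂ) (H : ℂ → ℂ) : Prop where
  ana : ∀ t ∈ upH, t ∉ P → AnalyticAt ℂ H t
  ra : ∀ x : ℝ, (x : ℂ) ∉ P → (∀ i, x ≠ e i) → ∃ c, RA H x c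
  br : ∀ i, Tendsto (fun t => (t - e i) * H t) (𝓝[upH] (e i : ℂ)) (𝓝 0)
  inf : ∃ C : ℝ, ∀ᶠ t in cocompact ℂ ⊓ 𝓟 upH, ‖H t‖ ≤ C * (‖t‖ * √‖t‖)

/-! ### Basic facts -/

theorem neBot_upH (x : ℝ) : (𝓝[upH] (x : ℂ)).NeBot :=
  (tendsto_vert x).neBot

theorem RA.tendsto {G : ℂ → ℂ} {x c : ℝ} (h : RA G x c) :
    Tendsto G (𝓝[upH] (x : ℂ)) (𝓝 (c : ℂ)) := by
  obtain ⟨Ψ, h1, -, h3, h4⟩ := h
  rw [← h3]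
  exact (h1.continuousAt.tendsto.mono_left nhdsWithin_le_nhds).congr' (h4.mono fun _ e => e.symm)

theorem RA.unique {G : ℂ → ℂ} {x c d : ℝ} (h : RA G x c) (h' : RA G x d) : c = d := by
  have := neBot_upH x
  exact_mod_cast tendsto_nhds_unique h.tendsto h'.tendsto

theorem RA.congr {G K : ℂ → ℂ} {x c : ℝ} (h : RA G x c)
    (he : ∀ᶠ η : ℂ in 𝓝[upH] (x : ℂ), K η = G η) : RA K x c := by
  obtain ⟨Ψ, h1, h2, h3, h4⟩ := h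
  exact ⟨Ψ, h1, h2, h3, by filter_upwards [he, h4] with η a b using a.trans b⟩

/-- Near `x` the values are those of the extension. -/
theorem RA.near {G : ℂ → ℂ} {x c : ℝ} (h : RA G x c) : ∃ Ψ : ℂ → ℂ, AnalyticAt ℂ Ψ x ∧ Ψ x = c ∧
    (∀ᶠ η : ℂ in 𝓝[upH] (x : ℂ), G η = Ψ η) ∧
    ∀ᶠ t : ℝ in 𝓝 x, (Ψ t).im = 0 ∧ RA G t (Ψ t).re := by
  obtain ⟨Ψ, h1, h2, h3, h4⟩ := h
  refine ⟨Ψ, h1, h3, h4, ?_⟩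
  have h5 : ∀ᶠ t : ℝ in 𝓝 x, AnalyticAt ℂ Ψ t :=
    (continuous_ofReal.tendsto x).eventually h1.eventually_analyticAt
  filter_upwards [h2, h2.eventually_nhds, h5, eventually_upH h4] with t a b c d
  exact ⟨a, Ψ, c, b, Complex.ext (by simp) (by simpa using a), d⟩

theorem RA.of_ana {G : ℂ → ℂ} {x : ℝ} (h1 : AnalyticAt ℂ G x)
    (h2 : ∀ᶠ t : ℝ in 𝓝 x, (G t).im = 0) : RA G x (G x).re :=
  ⟨G, h1, h2, Complex.ext (by simp) (by simpa using h2.self_of_nhds),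
    Eventually.of_forall fun _ => rfl⟩

theorem RA.mul {G K : ℂ → ℂ} {x c d : ℝ} (h : RA G x c) (h' : RA K x d) :
    RA (fun η => G η * K η) x (c * d) := by
  obtain ⟨Ψ, h1, h2, h3, h4⟩ := h
  obtain ⟨Φ, k1, k2, k3, k4⟩ := h'
  refine ⟨fun η => Ψ η * Φ η, h1.mul k1, ?_, by simp [h3, k3], ?_⟩
  · filter_upwards [h2, k2] with t a b
    simp [a, b]
  · filter_upwards [h4, k4] with η a b
    rw [a, b]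

theorem RA.add {G K : ℂ → ℂ} {x c d : ℝ} (h : RA G x c) (h' : RA K x d) :
    RA (fun η => G η + K η) x (c + d) := by
  obtain ⟨Ψ, h1, h2, h3, h4⟩ := h
  obtain ⟨Φ, k1, k2, k3, k4⟩ := h'
  refine ⟨fun η => Ψ η + Φ η, h1.add k1, ?_, by simp [h3, k3], ?_⟩
  · filter_upwards [h2, k2] with t a b
    simp [a, b]
  · filter_upwards [h4, k4] with η a b
    rw [a, b]

/-- The gradient of the reflected function. -/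
theorem grad_cj (u : ℂ → ℝ) (z : ℂ) : grad (fun y => u (conj y)) z = conj (grad u (conj z)) := by
  have h : fderiv ℝ (fun y => u (conj y)) z =
      (fderiv ℝ u (conj z)).comp (conjCLE : ℂ →L[ℝ] ℂ) := conjCLE.comp_right_fderiv
  unfold grad
  rw [h]
  simp

theorem RA.shift {G : ℂ → ℂ} {x a c : ℝ} (h : RA G (x + a) c) : RA (fun η => G (η + a)) x c := by
  obtain ⟨Ψ, h1, h2, h3, h4⟩ := h
  refine ⟨fun η => Ψ (η + a), ?_, ?_, by simpa using h3, (tendsto_shift x a).eventually h4⟩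
  · have h5 : AnalyticAt ℂ (fun η : ℂ => η + a) x := by fun_prop
    exact AnalyticAt.comp (f := fun η : ℂ => η + a) (by simpa using h1) h5
  · have h5 : Tendsto (fun t : ℝ => t + a) (𝓝 x) (𝓝 (x + a)) := tendsto_id.add_const a
    simpa using h5.eventually h2

/-- Periodicity of the boundary values. -/
theorem RA.per {G : ℂ → ℂ} {h : ℝ} (hh : 0 < h)
    (hG : ∀ (k : ℤ), ∀ η ∈ St h, G (η + (2 * π * k : ℝ)) = G η) {x c : ℝ} (hx : RA G x c)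
    (k : ℤ) : RA G (x + 2 * π * k) c := by
  have h1 : RA G (x + 2 * π * k + 2 * π * (-k : ℤ)) c := by
    convert hx using 1
    push_cast
    ring
  refine h1.shift.congr ?_
  filter_upwards [St_mem hh (x + 2 * π * k)] with η hη using (hG (-k) η hη).symm

theorem Ea_per (k : ℤ) (η : ℂ) : Ea (η + (2 * π * k : ℝ)) = Ea η := UniFP.expI_shift η k

theorem Eb_per (r : ℝ) (k : ℤ) (η : ℂ) : Eb r (η + (2 * π * k : ℝ)) = Eb r η := by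
  unfold Eb
  rw [exp_neg, exp_neg, UniFP.expI_shift]

theorem norm_Ea (η : ℂ) : ‖Ea η‖ = Real.exp (-η.im) := UniFP.norm_expI η

theorem norm_Eb {r : ℝ} (h0 : 0 < r) (η : ℂ) : ‖Eb r η‖ = r * Real.exp η.im := by
  unfold Eb
  rw [norm_mul, norm_real, Real.norm_of_nonneg h0.le, norm_exp]
  simp

theorem analytic_Ea (η : ℂ) : AnalyticAt ℂ Ea η := by unfold Ea; fun_prop

theorem analytic_Eb (r : ℝ) (η : ℂ) : AnalyticAt ℂ (Eb r) η := by unfold Eb; fun_prop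

theorem deriv_Ea (η : ℂ) : deriv Ea η = I * Ea η := by
  have := ((hasDerivAt_id η).const_mul I).cexp
  simp only [id, mul_one] at this
  rw [mul_comm I (Ea η)]
  exact this.deriv

theorem deriv_Eb (r : ℝ) (η : ℂ) : deriv (Eb r) η = -I * Eb r η := by
  have := (((hasDerivAt_id η).const_mul I).neg.cexp).const_mul (r : ℂ)
  simp only [id, mul_one, Pi.neg_apply] at this
  refine this.deriv.trans ?_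
  unfold Eb
  ring

theorem tendsto_Ea {r : ℝ} (h1 : r < 1) (x : ℝ) :
    Tendsto Ea (𝓝[upH] (x : ℂ)) (𝓝[ann r] (Ea x)) := by
  have hc := (analytic_Ea x).continuousAt.tendsto.mono_left (nhdsWithin_le_nhds (s := upH))
  refine tendsto_nhdsWithin_iff.2 ⟨hc, ?_⟩
  have h2 : r < ‖Ea x‖ := by rw [norm_Ea]; simpa using h1
  filter_upwards [hc.norm.eventually (lt_mem_nhds h2), self_mem_nhdsWithin] with η a b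
  refine ⟨a, ?_⟩
  rw [norm_Ea, Real.exp_lt_one_iff]
  exact neg_neg_of_pos b

theorem tendsto_Eb {r : ℝ} (h0 : 0 < r) (h1 : r < 1) (x : ℝ) :
    Tendsto (Eb r) (𝓝[upH] (x : ℂ)) (𝓝[ann r] (Eb r x)) := by
  have hc := (analytic_Eb r x).continuousAt.tendsto.mono_left (nhdsWithin_le_nhds (s := upH))
  refine tendsto_nhdsWithin_iff.2 ⟨hc, ?_⟩
  have h2 : ‖Eb r x‖ < 1 := by rw [norm_Eb h0]; simpa using h1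
  filter_upwards [hc.norm.eventually (gt_mem_nhds h2), self_mem_nhdsWithin] with η a b
  refine ⟨?_, a⟩
  rw [norm_Eb h0]
  exact lt_mul_of_one_lt_right h0 (Real.one_lt_exp_iff.2 b)

theorem esc_of {W : Set ℂ} {G : ℂ → ℂ} {x : ℝ} {p : ℂ} (hp : p ∉ W)
    (h : Tendsto G (𝓝[upH] (x : ℂ)) (𝓝[W] p)) : Esc W G x := fun _ hC hs =>
  (h.eventually self_mem_nhdsWithin).and ((h.mono_right nhdsWithin_le_nhds).eventually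
    (hC.isClosed.isOpen_compl.mem_nhds fun hc => hp (hs hc)))

/-- The quotient of the gradients in a chart. -/
theorem ff_comp {W : Set ℂ} {G : ℂ → ℂ} {x : ℝ} {v ω : ℂ → ℝ} (hG : Ch W G x)
    (hv : HarmonicOnNhd v W) (hω : HarmonicOnNhd ω W) : ∀ᶠ η : ℂ in 𝓝[upH] (x : ℂ),
      ff v ω (G η) = -grad (fun ζ => ω (G ζ)) η / grad (fun ζ => v (G ζ)) η := by
  filter_upwards [hG] with η ⟨a, b, c⟩
  rw [grad_comp (harm_diff (hω _ c)) a.differentiableAt,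
    grad_comp (harm_diff (hv _ c)) a.differentiableAt, ff, ← neg_mul, mul_div_mul_right _ _ b]

theorem Ch.harm {W : Set ℂ} {G : ℂ → ℂ} {x : ℝ} {u : ℂ → ℝ} (hG : Ch W G x)
    (hu : HarmonicOnNhd u W) : ∀ᶠ η : ℂ in 𝓝[upH] (x : ℂ), HarmonicAt (fun ζ => u (G ζ)) η :=
  hG.mono fun _ h => harm_comp (hu _ h.2.2) h.1

namespace TF

variable {r A B : ℝ} {z₁ : ℂ} {L : Set ℂ} {v ω : ℂ → ℝ} {φ F : ℂ → ℂ} {h s0 s1 y : ℝ} {Fb : ℝ → ℂ}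
  (T : TF r A B z₁ L v ω φ F h s0 s1 y Fb)
include T

theorem cont : Cont r L := T.fr.cfg.cont

theorem B0 : 0 < B := T.fr.cfg.B0

theorem L1 : ∀ p ∈ L, ‖p‖ < 1 := by
  rcases T.fr.cfg.cases with ⟨h1, -⟩ | ⟨-, h1, -⟩
  · exact absurd h1 T.A0.ne
  · exact h1

theorem nt (hs : s1 = s0 + 2 * π) : ∀ p ∈ L, ‖p‖ ≠ r := fun p hp e =>
  (T.fr.pic.touch.1 ⟨p, hp, e⟩).ne hs

theorem yZ : y ∈ Zo s0 s1 := T.one.1.1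

theorem tA (x : ℝ) : Tendsto Ea (𝓝[upH] (x : ℂ)) (𝓝[main r L] (Ea x)) := by
  have h1 : ‖Ea x‖ = 1 := by rw [norm_Ea]; simp
  rw [T.cont.nhds_eq (T.cont.outer_closure T.L1 h1) fun hp => (T.L1 _ hp).ne h1]
  exact tendsto_Ea T.cont.r1 x

theorem exB (hs : s1 = s0 + 2 * π) (x : ℝ) : Eb r x ∈ Ex r L :=
  T.cont.Ex_all (T.nt hs) (by rw [norm_Eb T.cont.r0]; simp)

theorem tB (hs : s1 = s0 + 2 * π) (x : ℝ) :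
    Tendsto (Eb r) (𝓝[upH] (x : ℂ)) (𝓝[main r L] (Eb r x)) := by
  rw [T.cont.nhds_eq (T.exB hs x).2.2 (T.exB hs x).2.1]
  exact tendsto_Eb T.cont.r0 T.cont.r1 x

theorem tF (x : ℝ) : Tendsto F (𝓝[upH] (x : ℂ)) (𝓝[main r L] (Fb x)) :=
  T.bd.tendsto T.fr.unif x

theorem chA (x : ℝ) : Ch (main r L) Ea x :=
  ((T.tA x).eventually self_mem_nhdsWithin).mono fun η hη =>
    ⟨analytic_Ea η, by rw [deriv_Ea]; exact mul_ne_zero I_ne_zero (exp_ne_zero _), hη⟩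

theorem chB (hs : s1 = s0 + 2 * π) (x : ℝ) : Ch (main r L) (Eb r) x :=
  ((T.tB hs x).eventually self_mem_nhdsWithin).mono fun η hη =>
    ⟨analytic_Eb r η, by
      rw [deriv_Eb]
      exact mul_ne_zero (neg_ne_zero.2 I_ne_zero)
        (mul_ne_zero (by exact_mod_cast T.cont.r0.ne') (exp_ne_zero _)), hη⟩

theorem chF (x : ℝ) : Ch (main r L) F x :=
  (T.fr.unif.ev_main x).mono fun _ hη =>
    ⟨T.fr.unif.analytic hη.1, T.fr.unif.deriv_ne hη.1, hη.2⟩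

theorem escA (x : ℝ) : Esc (main r L) Ea x :=
  esc_of (fun hp => (main_sub r L hp).1.2.ne (by rw [norm_Ea]; simp)) (T.tA x)

theorem escB (hs : s1 = s0 + 2 * π) (x : ℝ) : Esc (main r L) (Eb r) x :=
  esc_of (fun hp => (main_sub r L hp).1.1.ne' (T.exB hs x).1) (T.tB hs x)

theorem escF (x : ℝ) : Esc (main r L) F x := esc_of (T.bd.mem T.fr.unif x).2.2.2 (T.tF x)

end TF

/-! ### The gradient of `v` does not vanish -/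

def T_STR : Prop := ∀ (r A B : ℝ) (L : Set ℂ) (v ω : ℂ → ℝ), Cont r L → (∀ p ∈ L, ‖p‖ < 1) →
  A < 0 → 0 < B → Sol r A B L v → Sol r 1 0 L ω → Str3 A B (main r L) v ω

/-- All components of a superlevel set meet `P`. -/
def T_GEN : Prop := ∀ (W P S : Set ℂ) (u : ℂ → ℝ) (c : ℝ), IsOpen W → Bornology.IsBounded W →
  HarmonicOnNhd u W → (∃ M : ℝ, ∀ z ∈ W, u z ≤ M) → S.Finite → IsPreconnected P →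
  (∀ z ∈ P, z ∈ W ∧ c < u z) →
  (∀ p ∈ frontier W, p ∉ S → LS u W p c ∨ ∀ᶠ z in 𝓝[W] p, z ∈ P) →
  IsPreconnected {z | z ∈ W ∧ c < u z}

/-- A connected one sided neighbourhood of a connected part of the boundary. -/
def T_GNB : Prop := ∀ U J O : Set ℂ, IsPreconnected J → J ⊆ closure U →
  (∀ p ∈ J, ∀ N ∈ 𝓝 p, ∃ V : Set ℂ, IsOpen V ∧ p ∈ V ∧ V ⊆ N ∧ IsPreconnected (V ∩ U)) →
  (∀ p ∈ J, ∀ᶠ z in 𝓝[U] p, z ∈ O) →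
  ∃ P : Set ℂ, IsPreconnected P ∧ P ⊆ O ∩ U ∧ ∀ p ∈ J, ∀ᶠ z in 𝓝[U] p, z ∈ P

/-- A connected neighbourhood of the arc. -/
def T_NBL : Prop := ∀ (r A B : ℝ) (z₁ : ℂ) (L : Set ℂ) (v ω : ℂ → ℝ) (φ F : ℂ → ℂ)
  (h s0 s1 y : ℝ) (Fb : ℝ → ℂ), TF r A B z₁ L v ω φ F h s0 s1 y Fb → ∀ ε > (0 : ℝ),
  ∃ P : Set ℂ, IsPreconnected P ∧ (∀ z ∈ P, z ∈ main r L ∧ |v z| < ε) ∧ (∃ z ∈ P, 0 < v z) ∧
    (∃ z ∈ P, v z < 0) ∧ ∀ p ∈ L, p ≠ Fb s0 → p ≠ Fb s1 → ∀ᶠ z in 𝓝[main r L] p, z ∈ P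

def T_LEV : Prop := ∀ (r A B : ℝ) (z₁ : ℂ) (L : Set ℂ) (v ω : ℂ → ℝ) (φ F : ℂ → ℂ)
  (h s0 s1 y : ℝ) (Fb : ℝ → ℂ), TF r A B z₁ L v ω φ F h s0 s1 y Fb → ∀ c : ℝ,
  IsPreconnected {z | z ∈ main r L ∧ c < v z} ∧ IsPreconnected {z | z ∈ main r L ∧ v z < c}

def T_NZ : Prop := ∀ (W : Set ℂ) (v : ℂ → ℝ), IsOpen W → IsPreconnected W → HarmonicOnNhd v W →
  (∃ z ∈ W, ∃ w ∈ W, v z ≠ v w) →
  (∀ c : ℝ, IsPreconnected {z | z ∈ W ∧ c < v z} ∧ IsPreconnected {z | z ∈ W ∧ v z < c}) →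
  ∀ z ∈ W, grad v z ≠ 0

/-! ### Boundary values -/

def T_BDA : Prop := ∀ (A B : ℝ) (W : Set ℂ) (v ω : ℂ → ℝ) (G : ℂ → ℂ) (x : ℝ), A < B →
  HarmonicOnNhd v W → HarmonicOnNhd ω W → Str3 A B W v ω → Ch W G x →
  ((∀ᶠ t : ℝ in 𝓝 x, Tendsto (fun η => v (G η)) (𝓝[upH] (t : ℂ)) (𝓝 A) ∧
      Tendsto (fun η => ω (G η)) (𝓝[upH] (t : ℂ)) (𝓝 1)) →
    ∃ c : ℝ, 1 / (B - A) < c ∧ RA (fun η => ff v ω (G η)) x c) ∧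
  ((∀ᶠ t : ℝ in 𝓝 x, Tendsto (fun η => v (G η)) (𝓝[upH] (t : ℂ)) (𝓝 B) ∧
      Tendsto (fun η => ω (G η)) (𝓝[upH] (t : ℂ)) (𝓝 0)) →
    ∃ c ∈ Ioo (0 : ℝ) (1 / (B - A)), RA (fun η => ff v ω (G η)) x c)

def T_BDZ : Prop := ∀ (B : ℝ) (W : Set ℂ) (v ω : ℂ → ℝ) (G : ℂ → ℂ) (x : ℝ), 0 < B →
  HarmonicOnNhd v W → HarmonicOnNhd ω W → (∀ z ∈ W, 0 < ω z) → Ch W G x →
  (∀ᶠ t : ℝ in 𝓝 x, Tendsto (fun η => ω (G η)) (𝓝[upH] (t : ℂ)) (𝓝 0)) →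
  (Ord (fun η => v (G η)) x 0 → ∃ c : ℝ, c < 0 ∧ RA (fun η => ff v ω (G η)) x c) ∧
  (Ord (fun η => v (G η)) x 2 →
    ∃ c : ℝ, c < 0 ∧ RA (fun η => (η - x) ^ 2 * ff v ω (G η)) x c) ∧
  ((∃ Φ, RefAt (fun η => v (G η) - B / π * arg (η - x)) x Φ) →
    RA (fun η => ff v ω (G η)) x 0) ∧
  ((∃ Φ, RefAt (fun η => v (G η) - B + B / π * arg (η - x)) x Φ) →
    RA (fun η => ff v ω (G η)) x 0)

def T_BDAT : Prop := ∀ (r A B : ℝ) (z₁ : ℂ) (L : Set ℂ) (v ω : ℂ → ℝ) (φ F : ℂ → ℂ)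
  (h s0 s1 y : ℝ) (Fb : ℝ → ℂ), TF r A B z₁ L v ω φ F h s0 s1 y Fb →
  BDat r A B (ff v ω) F s0 s1 y

/-- The range on a compact interval. -/
def T_RNGc : Prop := ∀ (G : ℂ → ℂ) (p q : ℝ), p < q → (∀ x ∈ Icc p q, ∃ c, RA G x c) →
  (∀ c : ℂ, ¬ ∀ᶠ η : ℂ in 𝓝[upH] (p : ℂ), G η = c) →
  ∃ a b : ℝ, a < b ∧ (∀ x ∈ Icc p q, ∃ c ∈ Icc a b, RA G x c) ∧
    ∀ c ∈ Icc a b, ∃ x ∈ Icc p q, RA G x c

/-- The range on an interval that ends at the double pole. -/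
def T_RNGz : Prop := ∀ (G : ℂ → ℂ) (q y : ℝ), q ≠ y → (∀ x ∈ uIcc q y, x ≠ y → ∃ c, RA G x c) →
  (∃ c : ℝ, c < 0 ∧ RA (fun η => (η - y) ^ 2 * G η) y c) →
  ∃ b : ℝ, (∀ x ∈ uIcc q y, x ≠ y → ∃ c ≤ b, RA G x c) ∧
    ∀ c ≤ b, ∃ x ∈ uIcc q y, x ≠ y ∧ RA G x c

/-- `f` is not constant in a chart. -/
def T_NC : Prop := ∀ (W : Set ℂ) (f F G : ℂ → ℂ) (x y : ℝ), IsOpen W → IsPreconnected W →
  DifferentiableOn ℂ f W → Ch W F y → Ch W G x →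
  (∃ c : ℝ, c < 0 ∧ RA (fun η => (η - y) ^ 2 * f (F η)) y c) →
  (∀ c : ℂ, ¬ ∀ᶠ η : ℂ in 𝓝[upH] (x : ℂ), f (G η) = c) ∧ ∀ z ∈ W, ¬ ∀ᶠ w in 𝓝 z, f w = f z

def T_RNG : Prop := ∀ (r A B : ℝ) (z₁ : ℂ) (L : Set ℂ) (v ω : ℂ → ℝ) (φ F : ℂ → ℂ)
  (h s0 s1 y : ℝ) (Fb : ℝ → ℂ) (f : ℂ → ℂ), TF r A B z₁ L v ω φ F h s0 s1 y Fb →
  DifferentiableOn ℂ f (main r L) → BDat r A B f F s0 s1 y → ∃ e, Rng r f F s0 s1 y e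

/-- From the three charts to the boundary points. -/
def T_PULL : Prop := ∀ (r A B : ℝ) (z₁ : ℂ) (L : Set ℂ) (v ω : ℂ → ℝ) (φ F : ℂ → ℂ)
  (h s0 s1 y : ℝ) (Fb : ℝ → ℂ) (P : ℂ → Prop), TF r A B z₁ L v ω φ F h s0 s1 y Fb →
  (∀ x : ℝ, ∀ᶠ η : ℂ in 𝓝[upH] (x : ℂ), P (Ea η)) →
  (s1 = s0 + 2 * π → ∀ x : ℝ, ∀ᶠ η : ℂ in 𝓝[upH] (x : ℂ), P (Eb r η)) →
  (∀ x ∈ Icc s0 (s0 + 2 * π), ∀ᶠ η : ℂ in 𝓝[upH] (x : ℂ), P (F η)) →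
  ∀ p ∈ frontier (main r L), ∀ᶠ z in 𝓝[main r L] p, P z

def T_ASM : Prop := ∀ (r A B : ℝ) (z₁ : ℂ) (L : Set ℂ) (v ω : ℂ → ℝ) (φ F : ℂ → ℂ)
  (h s0 s1 y : ℝ) (Fb : ℝ → ℂ) (f : ℂ → ℂ) (e : Fin 5 → ℝ), TF r A B z₁ L v ω φ F h s0 s1 y Fb →
  Rng r f F s0 s1 y e → ACC (main r L) f e ∧
    (∀ (a b : ℝ) (u : ℂ → ℝ), Sol r a b L u → CL (main r L) f e u a b) ∧
    ∀ g : ℂ → ℝ, (∀ p ∈ frontier (main r L), Tendsto g (𝓝[main r L] p) (𝓝 0)) →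
      CL (main r L) f e g 0 0

/-- Local injectivity at the double pole. -/
def T_BIG1 : Prop := ∀ (G : ℂ → ℂ) (y c : ℝ), c < 0 → RA (fun η => (η - y) ^ 2 * G η) y c →
  (∃ D ∈ 𝓝[upH] (y : ℂ), InjOn G D) ∧
    Tendsto (fun τ : ℝ => (G (y + τ * I)).re) (𝓝[>] 0) atTop

def T_BIG : Prop := ∀ (r A B : ℝ) (z₁ : ℂ) (L : Set ℂ) (v ω : ℂ → ℝ) (φ F : ℂ → ℂ)
  (h s0 s1 y : ℝ) (Fb : ℝ → ℂ) (f : ℂ → ℂ) (e : Fin 5 → ℝ), TF r A B z₁ L v ω φ F h s0 s1 y Fb →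
  ContinuousOn f (main r L) → Rng r f F s0 s1 y e → BIG (main r L) f e

/-! ### The conformal map -/

def T_SPRE : Prop := ∀ e : Fin 5 → ℝ, Od e → IsOpen (Sl e)ᶜ ∧ IsPreconnected (Sl e)ᶜ ∧
  upH ⊆ (Sl e)ᶜ ∧ (∀ t, conj t ∈ Sl e ↔ t ∈ Sl e) ∧ (∀ i, (e i : ℂ) ∈ Sl e) ∧
  Dense (Sl e)ᶜ ∧ ∀ x : ℝ, (x : ℂ) ∈ Sl e → (∀ i, x ≠ e i) →
    x ∈ Ioo (e 3) (e 4) ∨ x ∈ Ioo (e 1) (e 2) ∨ x < e 0

/-- Proper maps of degree one. -/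
def T_DEG : Prop := ∀ (X Y N : Set ℂ) (φ : ℂ → ℂ) (z : ℂ), IsOpen X →
  (∀ x ∈ X, ¬ ∀ᶠ w in 𝓝 x, φ w = φ x) → IsOpen Y → IsPreconnected Y → DifferentiableOn ℂ φ X →
  MapsTo φ X Y → (∀ C : Set ℂ, IsCompact C → C ⊆ Y → IsCompact (X ∩ φ ⁻¹' C)) → IsOpen N →
  N ⊆ X → InjOn φ N → z ∈ N → (∀ y ∈ X, φ y = φ z → y ∈ N) →
  BijOn φ X Y ∧ ∀ y ∈ X, deriv φ y ≠ 0

def T_BIJ : Prop := ∀ (W : Set ℂ) (f : ℂ → ℂ) (e : Fin 5 → ℝ) (u : ℂ → ℝ) (a b : ℝ), IsOpen W →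
  Bornology.IsBounded W → DifferentiableOn ℂ f W → (∀ z ∈ W, ¬ ∀ᶠ w in 𝓝 z, f w = f z) → Od e →
  CL W f e u a b → ACC W f e → BIG W f e → BijOn f W (Sl e)ᶜ ∧ ∀ z ∈ W, deriv f z ≠ 0

/-- Transfer of the boundary values. -/
def T_LIM : Prop := ∀ (W : Set ℂ) (f ψ : ℂ → ℂ) (e : Fin 5 → ℝ) (u : ℂ → ℝ) (a b : ℝ), IsOpen W →
  Bornology.IsBounded W → ContinuousOn f W → Od e → BijOn f W (Sl e)ᶜ →
  (∀ z ∈ W, ψ (f z) = z) → CL W f e u a b → Lim e (fun t => u (ψ t)) a b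

/-- Transfer of the Green function. -/
def T_TRG : Prop := ∀ (W : Set ℂ) (f ψ : ℂ → ℂ) (e : Fin 5 → ℝ) (H : ℂ → ℂ → ℝ) (z₀ : ℂ),
  IsOpen W → Bornology.IsBounded W → IsOpen (Sl e)ᶜ → DifferentiableOn ℂ f W →
  BijOn f W (Sl e)ᶜ → (∀ z ∈ W, deriv f z ≠ 0) → (∀ z ∈ W, ψ (f z) = z) →
  DifferentiableOn ℂ ψ (Sl e)ᶜ → Grn W H → z₀ ∈ W → Lim e (fun t => gr H z₀ (ψ t)) 0 0 →
  GS e (f z₀) fun t => gr H z₀ (ψ t)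

/-! ### Analysis in the slit plane -/

def T_SYM : Prop := ∀ (e : Fin 5 → ℝ) (V : ℂ → ℝ) (a b : ℝ), Od e → VS e V a b →
  US e ∅ V a b

/-- The gradient bound near a straight part of the boundary. -/
def T_GB0 : Prop := ∀ (U : ℂ → ℝ) (t : ℂ) (ρ M a : ℝ), 0 < t.im → 0 < ρ →
  HarmonicOnNhd U (ball t ρ ∩ upH) → (∀ z ∈ ball t ρ ∩ upH, |U z| ≤ M) →
  (∀ x : ℝ, (x : ℂ) ∈ ball t ρ → Tendsto U (𝓝[upH] (x : ℂ)) (𝓝 a)) →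
  ρ * ‖grad U t‖ ≤ 16 * (M + |a|)

/-- The gradient bound near a branch point or near infinity. -/
def T_GB1 : Prop := ∀ (U : ℂ → ℝ) (O : Set ℂ) (t : ℂ) (p M a b : ℝ), 0 < t.im →
  ball t (‖t - p‖ / 2) ⊆ O → HarmonicOnNhd U (O ∩ upH) → (∀ z ∈ O ∩ upH, |U z| ≤ M) →
  ((∀ x : ℝ, (x : ℂ) ∈ O → x < p → Tendsto U (𝓝[upH] (x : ℂ)) (𝓝 a)) ∨
    ∀ z ∈ O, z.re < p → HarmonicAt U z ∧ |U z| ≤ M) →
  ((∀ x : ℝ, (x : ℂ) ∈ O → p < x → Tendsto U (𝓝[upH] (x : ℂ)) (𝓝 b)) ∨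
    ∀ z ∈ O, p < z.re → HarmonicAt U z ∧ |U z| ≤ M) →
  ‖t - p‖ * ‖grad U t‖ ≤ 32 * (M + |a| + |b|)

/-- The gradient bounds. -/
def T_GB : Prop := ∀ (e : Fin 5 → ℝ) (P : Set ℂ) (U : ℂ → ℝ) (a b : ℝ), Od e → US e P U a b →
  (∀ i, ∃ C : ℝ, ∀ᶠ t : ℂ in 𝓝[upH] (e i : ℂ), ‖t - e i‖ * ‖grad U t‖ ≤ C) ∧
    ∃ C : ℝ, ∀ᶠ t in cocompact ℂ ⊓ 𝓟 upH, ‖t‖ * ‖grad U t‖ ≤ C

/-- The square root. -/
def T_RT1 : Prop := ∀ e : Fin 5 → ℝ, Od e →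
  (∀ t ∈ upH, AnalyticAt ℂ (Rt e) t ∧ Rt e t ≠ 0) ∧ (∀ t, Rt e t ^ 2 = ∏ i, (t - e i)) ∧
  ∀ x : ℝ, (∀ i, x ≠ e i) → ((x : ℂ) ∉ Sl e → ∃ c, RA (Rt e) x c) ∧
    ((x : ℂ) ∈ Sl e → ∃ c, RA (fun t => I * Rt e t) x c)

/-- The size of the square root. -/
def T_RT2 : Prop := ∀ e : Fin 5 → ℝ, (∀ i, Tendsto (Rt e) (𝓝[upH] (e i : ℂ)) (𝓝 0)) ∧
  (∃ C : ℝ, ∀ᶠ t in cocompact ℂ, ‖Rt e t‖ ≤ C * (‖t‖ ^ 2 * √‖t‖)) ∧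
  ∀ t : ℂ, 0 ≤ t.im → (∀ i, t ≠ e i) →
    MeasureTheory.IntegrableOn (fun y : ℝ => (1 / Rt e (t + y * I)).im) (Ioi 0)

def T_KV : Prop := ∀ (e : Fin 5 → ℝ) (P : Set ℂ) (U : ℂ → ℝ) (a b : ℝ), Od e → US e P U a b →
  LC e P fun t => grad U t * Rt e t

/-- Reflection. -/
def T_LI1 : Prop := ∀ (H : ℂ → ℂ) (P : Set ℂ), P.Finite → (∀ t ∈ upH, t ∉ P → AnalyticAt ℂ H t) →
  (∀ x : ℝ, (x : ℂ) ∉ P → ∃ c, RA H x c) →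
  ∃ K : ℂ → ℂ, (∀ t, t ∉ P → conj t ∉ P → AnalyticAt ℂ K t) ∧ (∀ t, K (conj t) = conj (K t)) ∧
    ∀ t ∈ upH, K t = H t

/-- Removable singularities and polynomial growth. -/
def T_LI2 : Prop := ∀ (K : ℂ → ℂ) (P : Set ℂ), P.Finite → (∀ t, t ∉ P → AnalyticAt ℂ K t) →
  (∀ p ∈ P, Tendsto (fun t => (t - p) * K t) (𝓝[≠] p) (𝓝 0)) →
  (∃ C : ℝ, ∀ᶠ t in cocompact ℂ, ‖K t‖ ≤ C * (‖t‖ * √‖t‖)) →
  ∃ l₀ l₁ : ℂ, ∀ t, t ∉ P → K t = l₀ + l₁ * t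

def T_LIOU : Prop := ∀ (e : Fin 5 → ℝ) (P : Set ℂ) (H : ℂ → ℂ), P.Finite → LC e P H →
  (∀ p ∈ P, 0 ≤ p.im → Tendsto (fun t => (t - p) * H t) (𝓝[upH \ {p}] p) (𝓝 0)) →
  ∃ l₀ l₁ : ℝ, ∀ t ∈ upH, t ∉ P → H t = l₀ + l₁ * t

def T_VF : Prop := ∀ (e : Fin 5 → ℝ) (V Ω : ℂ → ℝ) (a b a' b' : ℝ), Od e → US e ∅ V a b →
  US e ∅ Ω a' b' → (∀ t ∈ (Sl e)ᶜ, grad Ω t = -t * grad V t) →
  ∃ C : ℝ, (∀ t ∈ upH, grad V t * Rt e t = C) ∧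
    ∀ t ∈ (Sl e)ᶜ, grad V t ^ 2 * ∏ i, (t - e i) = C ^ 2

def T_HV : Prop := ∀ (e : Fin 5 → ℝ) (V : ℂ → ℝ) (a b C : ℝ), Od e → US e ∅ V a b →
  (∀ t ∈ upH, grad V t * Rt e t = C) → (∀ t ∈ (Sl e)ᶜ, V t = HV C e t) ∧
    HV C e ((e 3 + e 4) / 2 : ℝ) = a ∧ HV C e ((e 1 + e 2) / 2 : ℝ) = b

/-- The antisymmetric part of the Green function. -/
def T_GF1 : Prop := ∀ (e : Fin 5 → ℝ) (t₀ : ℂ) (G : ℂ → ℝ), Od e → GS e t₀ G →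
  ∀ t ∈ upH, t ≠ t₀ → t ≠ conj t₀ →
    G t - G (conj t) = Real.log ‖t - conj t₀‖ - Real.log ‖t - t₀‖

/-- The symmetric part of the Green function: hypotheses of the Liouville argument. -/
def T_GF2 : Prop := ∀ (e : Fin 5 → ℝ) (t₀ : ℂ) (G : ℂ → ℝ), Od e → GS e t₀ G →
  US e {t₀, conj t₀} (fun t => (G t + G (conj t)) / 2) 0 0 ∧
    Tendsto (fun t => (t - t₀) * grad (fun s => (G s + G (conj s)) / 2) t) (𝓝[≠] t₀)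
      (𝓝 (if t₀.im = 0 then -1 else -1 / 2)) ∧
    Tendsto (fun t => (t - conj t₀) * grad (fun s => (G s + G (conj s)) / 2) t) (𝓝[≠] (conj t₀))
      (𝓝 (if t₀.im = 0 then -1 else -1 / 2))

/-- The symmetric part of the Green function. -/
def T_GF3 : Prop := ∀ (e : Fin 5 → ℝ) (t₀ : ℂ) (G V : ℂ → ℝ) (a b C : ℝ), Od e → GS e t₀ G →
  US e ∅ V a b → (∀ t ∈ upH, grad V t * Rt e t = C) → (∀ t ∈ (Sl e)ᶜ, grad V t ≠ 0) →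
  ∃ l₀ l₁ : ℝ, ∀ t ∈ upH, t ≠ t₀ → t ≠ conj t₀ →
    grad (fun s => (G s + G (conj s)) / 2) t = grad V t * GK t₀ (grad V t₀)⁻¹ l₀ l₁ t

def T_GF : Prop := ∀ (e : Fin 5 → ℝ) (t₀ : ℂ) (G V : ℂ → ℝ) (a b C : ℝ), Od e → GS e t₀ G →
  US e ∅ V a b → (∀ t ∈ upH, grad V t * Rt e t = C) → (∀ t ∈ (Sl e)ᶜ, grad V t ≠ 0) →
  ∃ l₀ l₁ : ℝ, ∀ t ∈ (Sl e)ᶜ, t ≠ t₀ → t ≠ conj t₀ →
    grad G t = 1 / 2 * (1 / (t - conj t₀) - 1 / (t - t₀)) +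
      grad V t * GK t₀ (grad V t₀)⁻¹ l₀ l₁ t

/-! ### Assembly -/

/-- The conformal map with all boundary information. -/
def T_MAP : Prop := ∀ (r A B : ℝ) (z₁ : ℂ) (L : Set ℂ) (v ω : ℂ → ℝ) (φ F : ℂ → ℂ)
  (h s0 s1 y : ℝ) (Fb : ℝ → ℂ), TF r A B z₁ L v ω φ F h s0 s1 y Fb →
  ∃ e : Fin 5 → ℝ, Od e ∧ (e 0 < e 1 ↔ s1 = s0 + 2 * π) ∧ (∀ z ∈ main r L, grad v z ≠ 0) ∧
    DifferentiableOn ℂ (ff v ω) (main r L) ∧ BijOn (ff v ω) (main r L) (Sl e)ᶜ ∧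
    (∀ z ∈ main r L, deriv (ff v ω) z ≠ 0) ∧ CL (main r L) (ff v ω) e v A B ∧
    CL (main r L) (ff v ω) e ω 1 0 ∧
    ∀ g : ℂ → ℝ, (∀ p ∈ frontier (main r L), Tendsto g (𝓝[main r L] p) (𝓝 0)) →
      CL (main r L) (ff v ω) e g 0 0

def T_FORM : Prop := ∀ (r A B : ℝ) (z₀ z₁ : ℂ) (L : Set ℂ) (v ω : ℂ → ℝ) (φ F : ℂ → ℂ)
  (h s0 s1 y : ℝ) (Fb : ℝ → ℂ) (H : ℂ → ℂ → ℝ) (κ : ℝ → ℂ), TF r A B z₁ L v ω φ F h s0 s1 y Fb →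
  Grn (main r L) H → z₀ ∈ main r L → ann r \ κ '' Icc 0 1 = main r L →
  ((∀ t ∈ Icc (0 : ℝ) 1, r < ‖κ t‖) ↔ s1 = s0 + 2 * π) →
  ∃ e C l₀ l₁ f, Form r A B z₀ κ v (gr H z₀) e C l₀ l₁ f

def T_ROT : Prop := ∀ (r A B : ℝ) (z₀ ω : ℂ) (κ : ℝ → ℂ) (v g : ℂ → ℝ) (e : Fin 5 → ℝ)
  (C l₀ l₁ : ℝ) (f : ℂ → ℂ), ‖ω‖ = 1 → Form r A B z₀ κ v g e C l₀ l₁ f →
  Form r A B (ω * z₀) (fun t => ω * κ t) (fun z => v (conj ω * z)) (fun z => g (conj ω * z)) e C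
    l₀ l₁ fun z => f (conj ω * z)

def T_ROTc : Prop := ∀ (r A B : ℝ) (z₀ : ℂ) (κ : ℝ → ℂ) (v g : ℂ → ℝ) (e : Fin 5 → ℝ)
  (C l₀ l₁ : ℝ) (f : ℂ → ℂ), IsOpen (ann r \ κ '' Icc 0 1) → Form r A B z₀ κ v g e C l₀ l₁ f →
  Form r A B (conj z₀) (fun t => conj (κ t)) (fun z => v (conj z)) (fun z => g (conj z)) e C
    l₀ l₁ fun z => conj (f (conj z))

def T_CORE : Prop := ∀ (r A B : ℝ) (z₀ z₁ : ℂ) (m : ℝ) (L : Set ℂ) (v : ℂ → ℝ),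
  Ext r A B z₀ z₁ m L v → A < 0 → ∃ a b c κ g e C l₀ l₁ f, Crit r A B z₀ z₁ a b c κ v g ∧
    Form r A B z₀ κ v g e C l₀ l₁ f ∧ ann r ⊆ closure (main r L) ∧
    ((∀ p ∈ L, ‖p‖ ≠ r) → ∀ t ∈ Icc (0 : ℝ) 1, r < ‖κ t‖)

def T_MAIN : Prop := ∀ (r A B : ℝ) (z₀ z₁ : ℂ), 0 < r → z₀ ∈ ann r → z₁ ∈ ann r → A < 0 →
  0 < hf r A B z₁ → z₀ ≠ z₁ →
  (∃ a b c κ v g e C l₀ l₁ f, Crit r A B z₀ z₁ a b c κ v g ∧ Form r A B z₀ κ v g e C l₀ l₁ f ∧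
    (v z₀ : EReal) = Msup r A B z₀ z₁) ∧
  (∀ a b c κ v g, Crit r A B z₀ z₁ a b c κ v g → (v z₀ : EReal) ≤ Msup r A B z₀ z₁ ∧
    ((∀ t ∈ Icc (0 : ℝ) 1, r < ‖κ t‖) → Adm r A B z₁ (fun z => (v z : EReal)))) ∧
  ∀ u, Adm r A B z₁ u → u z₀ = Msup r A B z₀ z₁ →
    ∃ a b c κ v g e C l₀ l₁ f, Crit r A B z₀ z₁ a b c κ v g ∧ Form r A B z₀ κ v g e C l₀ l₁ f ∧
      (∀ t ∈ Icc (0 : ℝ) 1, r < ‖κ t‖) ∧ ∀ z ∈ ann r, u z = (v z : EReal)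

end Pool.Agent.P.MP_3bd355_an
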